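import Mathlib
import Pool.Agent.H48.RetreatDefs
import Pool.Agent.H48.Retreat3

set_option autoImplicit false

namespace Pool.Agent.Results.MP_af8618_al.Unbounded

open Pool.Agent.H48.RetreatDefs

/-- The relator `t a t⁻¹ a^(-m)`, with `a` the letter `false` and `t` the letter `true`. -/
def rel (m : ℕ) : Set (FreeGroup Bool) :=
  {FreeGroup.of true * FreeGroup.of false * (FreeGroup.of true)⁻¹ * (FreeGroup.of false ^ m)⁻¹}

/-- The generating set `{a, a⁻¹, t, t⁻¹}` of `BS(1, m) = ⟨a, t | t a t⁻¹ = a^m⟩`. -/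
def gens (m : ℕ) : Set (PresentedGroup (rel m)) :=
  {PresentedGroup.of false, (PresentedGroup.of false)⁻¹, PresentedGroup.of true,
    (PresentedGroup.of true)⁻¹}

/-- The move `(x, k) ↦ (x + c m^k, k)`. -/
def mvA (m : ℕ) (c : ℚ) (p : ℚ × ℤ) : ℚ × ℤ := (p.1 + c * (m : ℚ) ^ p.2, p.2)

theorem mvA_mvA (m : ℕ) (c d : ℚ) (p : ℚ × ℤ) : mvA m c (mvA m d p) = mvA m (c + d) p := by
  simp only [mvA, Prod.mk.injEq, and_true]; ring

theorem mvA_zero (m : ℕ) (p : ℚ × ℤ) : mvA m 0 p = p := by simp [mvA]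

/-- The inverse moves, as permutations. -/
def pm (m : ℕ) : Bool → Equiv.Perm (ℚ × ℤ)
  | false => ⟨mvA m (-1), mvA m 1, fun p => by simp [mvA_mvA, mvA_zero],
      fun p => by simp [mvA_mvA, mvA_zero]⟩
  | true => ⟨fun p => (p.1, p.2 - 1), fun p => (p.1, p.2 + 1), fun p => by simp, fun p => by simp⟩

theorem pm_pow (m n : ℕ) (p : ℚ × ℤ) : (pm m false ^ n) p = mvA m (-n) p := by
  induction n with
  | zero => simp [mvA_zero]
  | succ n ih =>
    rw [pow_succ', Equiv.Perm.mul_apply, ih]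
    change mvA m (-1) _ = _
    rw [mvA_mvA]
    congr 1
    push_cast
    ring

theorem pm_rel {m : ℕ} (hm : 2 ≤ m) : ∀ r ∈ rel m, FreeGroup.lift (pm m) r = 1 := by
  intro r hr
  rw [Set.mem_singleton_iff.mp hr]
  simp only [map_mul, map_inv, map_pow, FreeGroup.lift_apply_of]
  rw [mul_inv_eq_one]
  ext1 p
  rw [pm_pow]
  have hm0 : (m : ℚ) ≠ 0 := by positivity
  change ((mvA m (-1) (p.1, p.2 + 1)).1, (mvA m (-1) (p.1, p.2 + 1)).2 - 1) = _
  simp only [mvA, zpow_add_one₀ hm0, Prod.mk.injEq]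
  constructor <;> ring

theorem result (m : ℕ) (hm : 2 ≤ m) (D : ℕ) :
    ∃ g : PresentedGroup (rel m), ∀ d : ℕ, d ≤ D →
      (comp (gens m) ((wlen (gens m) g : ℤ) - d - 1) g).Finite := by
  have hm0 : (m : ℚ) ≠ 0 := by positivity
  set a : PresentedGroup (rel m) := PresentedGroup.of false with ha
  set t : PresentedGroup (rel m) := PresentedGroup.of true with ht
  set ρ := PresentedGroup.toGroup (pm_rel hm) with hρ
  set π : PresentedGroup (rel m) → ℚ × ℤ := fun g => ρ g⁻¹ (0, 0) with hπ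
  have πa : ∀ g, π (g * a) = mvA m 1 (π g) := by
    intro g
    simp only [hπ, mul_inv_rev, map_mul, map_inv, Equiv.Perm.mul_apply, ha, hρ,
      PresentedGroup.toGroup.of]
    rfl
  have πt : ∀ g, π (g * t) = ((π g).1, (π g).2 + 1) := by
    intro g
    simp only [hπ, mul_inv_rev, map_mul, map_inv, Equiv.Perm.mul_apply, ht, hρ,
      PresentedGroup.toGroup.of]
    rfl
  have πaz : ∀ (n : ℤ) g, π (g * a ^ n) = mvA m n (π g) := by
    intro n g
    induction n with
    | zero => simp [mvA_zero]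
    | succ n ih =>
      rw [zpow_add_one, ← mul_assoc, πa, ih, mvA_mvA]
      congr 1
      push_cast
      ring
    | pred n ih =>
      have h1 := πa (g * a ^ (-(n : ℤ) - 1))
      rw [mul_assoc, ← zpow_add_one, sub_add_cancel, ih] at h1
      have h2 := congrArg (mvA m (-1)) h1
      rw [mvA_mvA, mvA_mvA, neg_add_cancel, mvA_zero] at h2
      rw [← h2]
      congr 1
      push_cast
      ring
  have πtz : ∀ (n : ℤ) g, π (g * t ^ n) = ((π g).1, (π g).2 + n) := by
    intro n g
    induction n with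
    | zero => simp
    | succ n ih =>
      rw [zpow_add_one, ← mul_assoc, πt, ih]
      simp [add_assoc]
    | pred n ih =>
      have h1 := πt (g * t ^ (-(n : ℤ) - 1))
      rw [mul_assoc, ← zpow_add_one, sub_add_cancel, ih] at h1
      obtain ⟨h2, h3⟩ := Prod.mk.inj h1
      exact Prod.ext h2.symm (by simp only; omega)
  have hrel : t * a * t⁻¹ = a ^ (m : ℤ) := by
    have := PresentedGroup.one_of_mem (rels := rel m) (Set.mem_singleton _)
    simp only [map_mul, map_inv, map_pow] at this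
    rw [mul_inv_eq_one] at this
    rw [zpow_natCast]
    exact this
  have hz : ∀ n : ℤ, t * a ^ n = a ^ (m * n : ℤ) * t := by
    intro n
    rw [zpow_mul, ← hrel, conj_zpow]
    group
  have hc : ∀ (i : ℕ) (n : ℤ), t ^ (i : ℤ) * a ^ n = a ^ ((m : ℤ) ^ i * n) * t ^ (i : ℤ) := by
    intro i
    induction i with
    | zero => simp
    | succ i ih =>
      intro n
      push_cast
      rw [zpow_add_one, mul_assoc, hz, ← mul_assoc, ih, mul_assoc, pow_succ, mul_assoc]
  have nf : ∀ g : PresentedGroup (rel m), ∃ (i : ℕ) (n j : ℤ),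
      g = t ^ (-(i : ℤ)) * a ^ n * t ^ j := by
    have ka : ∀ (e : ℤ) (g : PresentedGroup (rel m)), (∃ (i : ℕ) (n j : ℤ),
        g = t ^ (-(i : ℤ)) * a ^ n * t ^ j) → ∃ (i : ℕ) (n j : ℤ),
        a ^ e * g = t ^ (-(i : ℤ)) * a ^ n * t ^ j := by
      rintro e g ⟨i, n, j, rfl⟩
      refine ⟨i, (m : ℤ) ^ i * e + n, j, ?_⟩
      have : a ^ ((m : ℤ) ^ i * e) = t ^ (i : ℤ) * a ^ e * t ^ (-(i : ℤ)) := by
        rw [hc]; group
      rw [zpow_add, this]
      group
    intro g
    have hg : g ∈ Subgroup.closure (Set.range (PresentedGroup.of : Bool → PresentedGroup (rel m))) := by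
      rw [PresentedGroup.closure_range_of]; trivial
    induction hg using Subgroup.closure_induction_left with
    | one => exact ⟨0, 0, 0, by simp⟩
    | mul_left x hx y _ ih =>
      obtain ⟨b, rfl⟩ := hx
      cases b
      · simpa using ka 1 y ih
      · obtain ⟨i, n, j, rfl⟩ := ih
        refine ⟨i, m * n, j + 1, ?_⟩
        have : a ^ ((m : ℤ) * n) = t * a ^ n * t⁻¹ := by rw [hz]; group
        rw [this, ← ht]
        group
    | inv_mul_cancel x hx y _ ih =>
      obtain ⟨b, rfl⟩ := hx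
      cases b
      · simpa using ka (-1) y ih
      · obtain ⟨i, n, j, rfl⟩ := ih
        refine ⟨i + 1, n, j, ?_⟩
        rw [← ht]
        push_cast
        group
  have π1 : π 1 = (0, 0) := by simp only [hπ, inv_one, map_one]; rfl
  have ker : ∀ g, π g = (0, 0) → g = 1 := by
    intro g hg
    obtain ⟨i, n, j, rfl⟩ := nf g
    have h0 := πtz (-(i : ℤ)) 1
    rw [one_mul, π1] at h0
    rw [πtz, πaz, h0] at hg
    simp only [mvA, Prod.mk.injEq, zero_add, mul_eq_zero, Int.cast_eq_zero] at hg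
    obtain ⟨h1, h2⟩ := hg
    have h3 : n = 0 := h1.resolve_right (zpow_ne_zero _ hm0)
    have h4 : j = i := by omega
    rw [h3, h4]
    group
  refine Pool.Agent.H48.Retreat.transfer hm a t (fun g => (π g).1) (fun g => (π g).2)
    (by simp [π1]) (by simp [π1]) (fun g => by simp [πa, mvA]) (fun g => by simp [πa, mvA])
    (fun g => by simp [πt]) (fun g => by simp [πt]) ?_ _ rfl D
  intro g h h1 h2
  have h3 : π g = π h := Prod.ext h1 h2
  have h4 : π (g * h⁻¹) = (0, 0) := by
    simp only [hπ, mul_inv_rev, inv_inv, map_mul, Equiv.Perm.mul_apply] at h3 ⊢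
    rw [h3, ← Equiv.Perm.mul_apply, ← map_mul]
    simp
  exact mul_inv_eq_one.mp (ker _ h4)

end Pool.Agent.Results.MP_af8618_al.Unbounded
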